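import Mathlib

/-!
Products of consecutive integers modulo `N`, evaluated by the kernel in packed form:
`2^k` slots of width `w` bits are kept in one natural number and are updated simultaneously.
The product of `2^k * r` consecutive integers is the product over the slots `m` of the value at `m`
of a polynomial of degree `r`, whose coefficients are computed in packed form too.
-/

set_option autoImplicit false

namespace Pool.Agent.CB

/-- `force n f = f n`, but the kernel evaluates `n` to a literal first. -/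
def force {α : Type} (n : ℕ) (f : ℕ → α) : α :=
  Nat.rec (motive := fun _ => α) (f 0) (fun k _ => f (Nat.succ k)) n

theorem force_eq {α : Type} (n : ℕ) (f : ℕ → α) : force n f = f n := by
  cases n <;> rfl

def forceList {α : Type} : List ℕ → (List ℕ → α) → α
  | [], f => f []
  | a :: l, f => force a (fun a' => forceList l (fun l' => f (a' :: l')))

theorem forceList_eq {α : Type} (l : List ℕ) : ∀ (f : List ℕ → α), forceList l f = f l := by
  induction l with
  | nil => intro f; rfl
  | cons a l ih => intro f; simp [forceList, force_eq, ih]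

/-- `∑_b 2^b (V &&& mask_b)` in Horner form. -/
def idx (V : ℕ) (masks : List ℕ) : ℕ :=
  List.rec (motive := fun _ => ℕ) 0 (fun M _ ih => Nat.add (Nat.mul 2 ih) (Nat.land V M)) masks

/-- `∑_{m < 2^k} 2^(w m)`. -/
def ones (w : ℕ) (k : ℕ) : ℕ :=
  Nat.rec (motive := fun _ => ℕ) 1 (fun k ih => Nat.mul ih (Nat.add 1 (Nat.pow 2 (Nat.mul w (Nat.pow 2 k))))) k

/-- mask of the slots whose index has bit `b` set. -/
def maskR (w b : ℕ) (k : ℕ) : ℕ :=
  Nat.rec (motive := fun _ => ℕ) 0 (fun k ih =>
    cond (Nat.beq k b) (Nat.mul (Nat.pow 2 (Nat.mul w (Nat.pow 2 k))) (Nat.sub (Nat.pow 2 (Nat.mul w (Nat.pow 2 k))) 1))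
      (Nat.mul ih (Nat.add 1 (Nat.pow 2 (Nat.mul w (Nat.pow 2 k)))))) k

/-- slotwise Barrett reduction of `W`, passed to the continuation `f`. -/
def barrett {α : Type} (N μ s LM W : ℕ) (f : ℕ → α) : α :=
  force W fun W => force (Nat.mul W μ) fun X =>
  force (Nat.sub W (Nat.mul N (Nat.shiftRight (Nat.sub X (Nat.land X LM)) s))) f

/-- product modulo `N` of the slots. -/
def prodSlots (N w : ℕ) (k : ℕ) : ℕ → ℕ :=
  Nat.rec (motive := fun _ => ℕ → ℕ) (fun V => Nat.mod V N)
    (fun k ih V => force V fun V =>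
      Nat.mod (Nat.mul (ih (Nat.mod V (Nat.pow 2 (Nat.mul w (Nat.pow 2 k)))))
        (ih (Nat.div V (Nat.pow 2 (Nat.mul w (Nat.pow 2 k)))))) N) k

/-- the list of the packed powers `m^0, m^1, …, m^(n-1)`, passed to the continuation. -/
def withPowers (N μ s LM : ℕ) (masks : List ℕ) (n : ℕ) : ℕ → (List ℕ → ℕ) → ℕ :=
  Nat.rec (motive := fun _ => ℕ → (List ℕ → ℕ) → ℕ) (fun _ f => f [])
    (fun _ ih P f => force P fun P =>
      barrett N μ s LM (idx P masks) fun P' => ih P' (fun l => f (P :: l))) n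

/-- packed coefficients of `∏_{i<n} (x + a + K i)` times the polynomial packed in `V`. -/
def coefs (N μ s LM Y K : ℕ) (n : ℕ) : ℕ → ℕ → (ℕ → ℕ) → ℕ :=
  Nat.rec (motive := fun _ => ℕ → ℕ → (ℕ → ℕ) → ℕ) (fun _ V f => f V)
    (fun _ ih a V f => barrett N μ s LM (Nat.mul V (Nat.add Y a)) fun V' =>
      force (Nat.add a K) fun a' => ih a' V' f) n

/-- `acc + ∑_j V_j P_j`. -/
def evalP (Y : ℕ) (l : List ℕ) : ℕ → ℕ → ℕ :=
  List.rec (motive := fun _ => ℕ → ℕ → ℕ) (fun _ acc => acc)
    (fun P _ ih V acc => force (Nat.add acc (Nat.mul (Nat.mod V Y) P)) fun acc' =>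
      force (Nat.div V Y) fun V' => ih V' acc') l

/-- `acc` times the product of `n` batches of `K * r` consecutive integers, starting at `c`. -/
def batches (N μ s w k LM' Y K r : ℕ) (P : List ℕ) (n : ℕ) : ℕ → ℕ → ℕ :=
  Nat.rec (motive := fun _ => ℕ → ℕ → ℕ) (fun _ acc => acc)
    (fun _ ih c acc => coefs N μ s LM' Y K r c 1 fun V =>
      force (Nat.mod (Nat.mul acc (prodSlots N w k (evalP Y P V 0))) N) fun acc' =>
      force (Nat.add c (Nat.mul K r)) fun c' => ih c' acc') n

/-- the product of the `2^k * r * n` consecutive integers starting at `c0`, modulo `N`. -/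
def rangeProd (N μ s w k kr r n c0 : ℕ) : ℕ :=
  forceList ((List.range k).map fun b => maskR w b k) fun masks =>
  force (Nat.mul (Nat.sub (Nat.pow 2 s) 1) (ones w k)) fun LM =>
  force (Nat.mul (Nat.sub (Nat.pow 2 s) 1) (ones w kr)) fun LM' =>
  force (Nat.pow 2 w) fun Y =>
  force (Nat.pow 2 k) fun K =>
  withPowers N μ s LM masks (Nat.succ r) (ones w k) fun P =>
  batches N μ s w k LM' Y K r P n c0 1

end Pool.Agent.CB
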