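import Pool.Agent.Lib.CB.Eval

set_option autoImplicit false

namespace Pool.Agent.CB

/-- packing of `2^k` slots of width `w` bits. -/
def pack (w : ℕ) : ℕ → (ℕ → ℕ) → ℕ
  | 0, f => f 0
  | k+1, f => pack w k f + 2^(w*2^k) * pack w k (fun m => f (m + 2^k))

theorem pack_congr {w k : ℕ} {f g : ℕ → ℕ} (h : ∀ m < 2^k, f m = g m) :
    pack w k f = pack w k g := by
  induction k generalizing f g with
  | zero => exact h 0 (by norm_num)
  | succ k ih =>
    simp only [pack]
    rw [ih (fun m hm => h m (by rw [pow_succ]; omega)),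
      ih (f := fun m => f (m+2^k)) (g := fun m => g (m+2^k))
        (fun m hm => h _ (by rw [pow_succ]; omega))]

theorem pack_add (w k : ℕ) (f g : ℕ → ℕ) :
    pack w k (fun m => f m + g m) = pack w k f + pack w k g := by
  induction k generalizing f g with
  | zero => rfl
  | succ k ih =>
    simp only [pack]
    rw [ih, ih (fun m => f (m+2^k)) (fun m => g (m+2^k))]
    ring

theorem pack_mul (w k c : ℕ) (f : ℕ → ℕ) :
    pack w k (fun m => c * f m) = c * pack w k f := by
  induction k generalizing f with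
  | zero => rfl
  | succ k ih =>
    simp only [pack]
    rw [ih, ih (fun m => f (m+2^k))]
    ring

theorem two_pow_dbl (w k : ℕ) : 2^(w*2^(k+1)) = 2^(w*2^k) * 2^(w*2^k) := by
  rw [← pow_add]; congr 1; ring

theorem pack_lt {w k : ℕ} {f : ℕ → ℕ} (h : ∀ m < 2^k, f m < 2^w) :
    pack w k f < 2^(w*2^k) := by
  induction k generalizing f with
  | zero => simpa [pack] using h 0 (by norm_num)
  | succ k ih =>
    simp only [pack]
    have h1 := ih (f := f) (fun m hm => h m (by rw [pow_succ]; omega))
    have h2 := ih (f := fun m => f (m+2^k)) (fun m hm => h _ (by rw [pow_succ]; omega))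
    rw [two_pow_dbl]
    generalize 2^(w*2^k) = X at *
    calc pack w k f + X * pack w k (fun m => f (m + 2 ^ k))
        < X + X * pack w k (fun m => f (m + 2 ^ k)) := by omega
      _ = X * (pack w k (fun m => f (m + 2 ^ k)) + 1) := by ring
      _ ≤ X * X := Nat.mul_le_mul_left _ h2

theorem land_split {a b c d n : ℕ} (ha : a < 2^n) (hc : c < 2^n) :
    (a + 2^n*b) &&& (c + 2^n*d) = (a &&& c) + 2^n*(b &&& d) := by
  have hp : 0 < 2^n := by positivity
  have h1 : ((a + 2^n*b) &&& (c + 2^n*d)) / 2^n = b &&& d := by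
    rw [Nat.and_div_two_pow, Nat.add_mul_div_left _ _ hp, Nat.add_mul_div_left _ _ hp,
      Nat.div_eq_of_lt ha, Nat.div_eq_of_lt hc]; simp
  have h2 : ((a + 2^n*b) &&& (c + 2^n*d)) % 2^n = a &&& c := by
    rw [Nat.and_mod_two_pow, Nat.add_mul_mod_self_left, Nat.add_mul_mod_self_left,
      Nat.mod_eq_of_lt ha, Nat.mod_eq_of_lt hc]
  rw [← Nat.mod_add_div ((a + 2^n*b) &&& (c + 2^n*d)) (2^n), h1, h2]

theorem pack_land {w k : ℕ} {f g : ℕ → ℕ} (hf : ∀ m < 2^k, f m < 2^w) (hg : ∀ m < 2^k, g m < 2^w) :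
    pack w k f &&& pack w k g = pack w k (fun m => f m &&& g m) := by
  induction k generalizing f g with
  | zero => rfl
  | succ k ih =>
    simp only [pack]
    have hf1 : ∀ m < 2^k, f m < 2^w := fun m hm => hf m (by rw [pow_succ]; omega)
    have hg1 : ∀ m < 2^k, g m < 2^w := fun m hm => hg m (by rw [pow_succ]; omega)
    have hf2 : ∀ m < 2^k, f (m+2^k) < 2^w := fun m hm => hf _ (by rw [pow_succ]; omega)
    have hg2 : ∀ m < 2^k, g (m+2^k) < 2^w := fun m hm => hg _ (by rw [pow_succ]; omega)
    rw [land_split (pack_lt hf1) (pack_lt hg1), ih hf1 hg1, ih (f := fun m => f (m+2^k))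
      (g := fun m => g (m+2^k)) hf2 hg2]

theorem pack_const (w k c : ℕ) : pack w k (fun _ => c) = c * ones w k := by
  induction k with
  | zero => simp [pack, ones]
  | succ k ih =>
    have : ones w (k+1) = ones w k * (1 + 2^(w*2^k)) := rfl
    simp only [pack]
    rw [this, ih]; ring

theorem ones_eq (w k : ℕ) : ones w k = pack w k (fun _ => 1) := by
  rw [pack_const]; simp

theorem pack_zero (w k : ℕ) : pack w k (fun _ => 0) = 0 := by
  rw [pack_const]; simp

theorem pack_full (w k : ℕ) : pack w k (fun _ => 2^w - 1) = 2^(w*2^k) - 1 := by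
  induction k with
  | zero => simp [pack]
  | succ k ih =>
    simp only [pack]
    rw [ih, two_pow_dbl]
    have : 1 ≤ 2^(w*2^k) := Nat.one_le_two_pow
    generalize 2^(w*2^k) = X at *
    obtain ⟨Y, rfl⟩ : ∃ Y, X = Y + 1 := ⟨X - 1, by omega⟩
    have h1 : (Y+1)*(Y+1) - 1 = Y + (Y+1)*Y := by
      have : (Y+1)*(Y+1) = Y + (Y+1)*Y + 1 := by ring
      omega
    simp only [Nat.add_sub_cancel] at *
    rw [h1]

theorem maskR_eq (w b k : ℕ) :
    maskR w b k = pack w k (fun m => if m.testBit b then 2^w - 1 else 0) := by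
  induction k with
  | zero => simp [pack, maskR]
  | succ k ih =>
    have h0 : maskR w b (k+1) = cond (Nat.beq k b) (2^(w*2^k) * (2^(w*2^k) - 1))
        (maskR w b k * (1 + 2^(w*2^k))) := rfl
    rw [h0]
    rcases lt_trichotomy k b with h | h | h
    · have hk : Nat.beq k b = false := by
        cases hh : Nat.beq k b with
        | false => rfl
        | true => have := Nat.eq_of_beq_eq_true hh; omega
      rw [hk, cond_false, ih]
      have hlt : 2^(k+1) ≤ 2^b := Nat.pow_le_pow_right (by norm_num) h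
      have e1 : pack w k (fun m => if m.testBit b then 2^w - 1 else 0) = 0 := by
        rw [pack_congr (g := fun _ => 0), pack_zero]
        intro m hm
        rw [Nat.testBit_lt_two_pow]
        · simp
        · rw [pow_succ] at hlt; omega
      have e2 : pack w (k+1) (fun m => if m.testBit b then 2^w - 1 else 0) = 0 := by
        rw [pack_congr (g := fun _ => 0), pack_zero]
        intro m hm
        rw [Nat.testBit_lt_two_pow]
        · simp
        · omega
      rw [e1, e2]; simp
    · subst h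
      have hk : Nat.beq k k = true := by simp
      rw [hk, cond_true]
      simp only [pack]
      have e1 : pack w k (fun m => if m.testBit k then 2^w - 1 else 0) = 0 := by
        rw [pack_congr (g := fun _ => 0), pack_zero]
        intro m hm
        rw [Nat.testBit_lt_two_pow hm]; simp
      have e2 : pack w k (fun m => if (m + 2^k).testBit k then 2^w - 1 else 0) =
          2^(w*2^k) - 1 := by
        rw [pack_congr (g := fun _ => 2^w-1), pack_full]
        intro m hm
        have : (m + 2^k).testBit k = true := by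
          rw [add_comm, Nat.testBit_two_pow_add_eq, Nat.testBit_lt_two_pow hm]; rfl
        simp [this]
      rw [e1, e2]; simp
    · have hk : Nat.beq k b = false := by
        cases hh : Nat.beq k b with
        | false => rfl
        | true => have := Nat.eq_of_beq_eq_true hh; omega
      rw [hk, cond_false]
      simp only [pack]
      have e2 : pack w k (fun m => if (m + 2^k).testBit b then 2^w - 1 else 0) =
          pack w k (fun m => if m.testBit b then 2^w - 1 else 0) := by
        apply pack_congr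
        intro m hm
        rw [add_comm, Nat.testBit_two_pow_add_gt h]
      rw [e2, ih]; ring

theorem idx_nil (V : ℕ) : idx V [] = 0 := rfl
theorem idx_cons (V M : ℕ) (l : List ℕ) : idx V (M :: l) = 2 * idx V l + (V &&& M) := rfl

theorem idx_masks_aux {w k : ℕ} {f : ℕ → ℕ} (hf : ∀ m < 2^k, f m < 2^w) (r : ℕ) : ∀ b : ℕ,
    idx (pack w k f) ((List.range' b r).map fun b => maskR w b k) =
      pack w k (fun m => f m * ((m / 2^b) % 2^r)) := by
  induction r with
  | zero =>
    intro b
    simp only [List.range'_zero, List.map_nil, idx_nil]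
    rw [pack_congr (g := fun _ => 0), pack_zero]
    intro m hm
    simp [Nat.mod_one]
  | succ r ih =>
    intro b
    rw [List.range'_succ, List.map_cons, idx_cons, ih (b+1), maskR_eq, pack_land hf, ← pack_mul,
      ← pack_add]
    · apply pack_congr
      intro m hm
      have h1 : m / 2^b % 2^(r+1) = 2 * (m / 2^(b+1) % 2^r) + (m / 2^b) % 2 := by
        have : m / 2^(b+1) = m / 2^b / 2 := by rw [pow_succ, Nat.div_div_eq_div_mul]
        rw [this]
        generalize m / 2^b = x
        have h2 : 2^(r+1) = 2 * 2^r := by rw [pow_succ]; ring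
        rw [h2, Nat.mod_mul]; ring
      by_cases ht : m.testBit b = true
      · have h2 : m / 2^b % 2 = 1 := by
          have := Nat.testBit_eq_decide_div_mod_eq (x := m) (i := b)
          rw [ht] at this
          simpa using this.symm
        rw [h1, h2]
        simp only [ht, if_true]
        rw [Nat.and_two_pow_sub_one_of_lt_two_pow (hf m hm)]
        ring
      · have h2 : m / 2^b % 2 = 0 := by
          have := Nat.testBit_eq_decide_div_mod_eq (x := m) (i := b)
          rw [Bool.not_eq_true] at ht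
          rw [ht] at this
          have h3 : ¬ (m / 2^b % 2 = 1) := by simpa using this.symm
          omega
        rw [h1, h2]
        simp only [ht]
        simp
        ring
    · intro m hm
      split_ifs
      · have : 0 < 2^w := by positivity
        omega
      · positivity

theorem idx_masks {w k : ℕ} {f : ℕ → ℕ} (hf : ∀ m < 2^k, f m < 2^w) :
    idx (pack w k f) ((List.range k).map fun b => maskR w b k) =
      pack w k (fun m => f m * m) := by
  rw [List.range_eq_range', idx_masks_aux hf k 0]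
  apply pack_congr
  intro m hm
  simp [Nat.mod_eq_of_lt hm]

/-- Barrett reduction of one slot. -/
def red (N μ s v : ℕ) : ℕ := v - N * (v * μ / 2^s)

theorem red_le {N μ s v : ℕ} (h1 : μ * N ≤ 2^s) : N * (v * μ / 2^s) ≤ v := by
  have hp : 0 < 2^s := by positivity
  have h2 : v * μ / 2^s * 2^s ≤ v * μ := Nat.div_mul_le_self _ _
  have h3 : N * (v * μ / 2^s) * 2^s ≤ v * 2^s := by
    calc N * (v * μ / 2^s) * 2^s = N * (v * μ / 2^s * 2^s) := by ring
      _ ≤ N * (v * μ) := Nat.mul_le_mul_left _ h2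
      _ = v * (μ * N) := by ring
      _ ≤ v * 2^s := Nat.mul_le_mul_left _ h1
  exact Nat.le_of_mul_le_mul_right h3 hp

theorem red_modEq {N μ s v : ℕ} (h1 : μ * N ≤ 2^s) : red N μ s v ≡ v [MOD N] := by
  unfold red
  have := red_le (v := v) h1
  have h2 : v - N * (v * μ / 2^s) + N * (v * μ / 2^s) = v := Nat.sub_add_cancel this
  calc v - N * (v * μ / 2^s) ≡ v - N * (v * μ / 2^s) + N * (v * μ / 2^s) [MOD N] := by
        simp [Nat.ModEq]
    _ = v := h2

theorem red_lt {N μ s v : ℕ} (hN : 0 < N) (h1 : μ * N ≤ 2^s) (h2 : 2^s < (μ+1) * N) (hv : v < 2^s) :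
    red N μ s v < 2 * N := by
  unfold red
  have hp : 0 < 2^s := by positivity
  have h3 : v * μ < (v * μ / 2^s + 1) * 2^s := by
    have := Nat.lt_div_mul_add hp (a := v * μ)
    linarith [this]
  have h4 : v * 2^s < N * (v * μ / 2^s) * 2^s + 2 * N * 2^s := by
    have e1 : v * 2^s ≤ v * ((μ+1) * N) := Nat.mul_le_mul_left _ h2.le
    have e2 : v * N ≤ 2^s * N := Nat.mul_le_mul_right _ hv.le
    have e3 : v * μ * N < (v * μ / 2^s + 1) * 2^s * N := Nat.mul_lt_mul_of_pos_right h3 hN
    nlinarith
  have h5 : v < N * (v * μ / 2^s) + 2 * N := by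
    have : v * 2^s < (N * (v * μ / 2^s) + 2 * N) * 2^s := by linarith
    exact Nat.lt_of_mul_lt_mul_right this
  have := red_le (v := v) h1
  omega


theorem red_zero (N μ s : ℕ) : red N μ s 0 = 0 := by simp [red]

theorem barrett_eq {α : Type} (N μ s LM W : ℕ) (f : ℕ → α) :
    barrett N μ s LM W f = f (W - N * ((W * μ - ((W * μ) &&& LM)) / 2^s)) := by
  have : barrett N μ s LM W f = (force W fun W => force (Nat.mul W μ) fun X =>
    force (Nat.sub W (Nat.mul N (Nat.shiftRight (Nat.sub X (Nat.land X LM)) s))) f) := rfl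
  rw [this]
  simp only [force_eq]
  have h : ∀ a : ℕ, Nat.shiftRight a s = a / 2^s := fun a => Nat.shiftRight_eq_div_pow a s
  rw [h]
  rfl

theorem barrett_pack {α : Type} {N μ s w k : ℕ} (hμ : 0 < μ) (h1 : μ * N ≤ 2^s) (h4 : 2^s * μ ≤ 2^w)
    {g : ℕ → ℕ} (hv : ∀ m < 2^k, g m < 2^s) (f : ℕ → α) :
    barrett N μ s ((2^s - 1) * ones w k) (pack w k g) f =
      f (pack w k (fun m => red N μ s (g m))) := by
  rw [barrett_eq]
  congr 1
  have hX : pack w k g * μ = pack w k (fun m => g m * μ) := by
    rw [mul_comm, ← pack_mul]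
    apply pack_congr; intro m _; ring
  have hXlt : ∀ m < 2^k, g m * μ < 2^w := by
    intro m hm
    calc g m * μ < 2^s * μ := Nat.mul_lt_mul_of_pos_right (hv m hm) hμ
      _ ≤ 2^w := h4
  have hs : 2^s ≤ 2^w := by
    calc 2^s = 2^s * 1 := by ring
      _ ≤ 2^s * μ := Nat.mul_le_mul_left _ hμ
      _ ≤ 2^w := h4
  have hLM : (pack w k g * μ) &&& ((2^s - 1) * ones w k) = pack w k (fun m => g m * μ % 2^s) := by
    rw [hX, ← pack_const, pack_land hXlt]
    · apply pack_congr
      intro m _
      rw [Nat.and_two_pow_sub_one_eq_mod]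
    · intro m _
      have : 0 < 2^s := by positivity
      omega
  have hdiff : pack w k g * μ - ((pack w k g * μ) &&& ((2^s - 1) * ones w k)) =
      2^s * pack w k (fun m => g m * μ / 2^s) := by
    rw [hLM, hX, ← pack_mul]
    have : pack w k (fun m => g m * μ) =
        pack w k (fun m => 2^s * (g m * μ / 2^s)) +
          pack w k (fun m => g m * μ % 2^s) := by
      rw [← pack_add]
      apply pack_congr
      intro m _
      exact (Nat.div_add_mod _ _).symm
    omega
  rw [hdiff, Nat.mul_div_cancel_left _ (by positivity : 0 < 2^s), ← pack_mul]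
  have : pack w k g = pack w k (fun m => red N μ s (g m)) +
      pack w k (fun m => N * (g m * μ / 2^s)) := by
    rw [← pack_add]
    apply pack_congr
    intro m _
    unfold red
    exact (Nat.sub_add_cancel (red_le h1)).symm
  omega

theorem pack_eq_sum (w k : ℕ) (f : ℕ → ℕ) :
    pack w k f = ∑ j ∈ Finset.range (2^k), f j * (2^w)^j := by
  induction k generalizing f with
  | zero => simp [pack]
  | succ k ih =>
    simp only [pack]
    rw [ih, ih (fun m => f (m + 2^k)), pow_succ, mul_two, Finset.sum_range_add, Finset.mul_sum]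
    congr 1
    apply Finset.sum_congr rfl
    intro j _
    rw [add_comm j (2^k), pow_add (2^w), ← pow_mul]
    ring

theorem sum_shift (n x : ℕ) (g : ℕ → ℕ) (hg : g n = 0) :
    ∑ j ∈ Finset.range (n+1), (if j = 0 then 0 else g (j-1)) * x^j =
      x * ∑ j ∈ Finset.range (n+1), g j * x^j := by
  rw [Finset.sum_range_succ', Finset.sum_range_succ, hg]
  simp only [Nat.add_sub_cancel, if_true, Nat.succ_ne_zero, if_false, zero_mul, add_zero]
  rw [Finset.mul_sum]
  apply Finset.sum_congr rfl
  intro j _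
  rw [pow_succ]; ring

/-- coefficients after multiplication by `x + a`. -/
def mulc (a : ℕ) (g : ℕ → ℕ) (j : ℕ) : ℕ := (if j = 0 then 0 else g (j-1)) + a * g j

theorem sum_mulc {k : ℕ} (a x : ℕ) (g : ℕ → ℕ) (hg : g (2^k - 1) = 0) :
    ∑ j ∈ Finset.range (2^k), mulc a g j * x^j = (∑ j ∈ Finset.range (2^k), g j * x^j) * (x + a) := by
  obtain ⟨n, hn⟩ := Nat.exists_eq_succ_of_ne_zero (show 2^k ≠ 0 by positivity)
  rw [Nat.succ_eq_add_one] at hn
  rw [hn] at hg ⊢
  simp only [Nat.add_sub_cancel] at hg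
  have h1 := sum_shift n x g hg
  have h2 : ∑ j ∈ Finset.range (n+1), mulc a g j * x^j =
      ∑ j ∈ Finset.range (n+1), (if j = 0 then 0 else g (j-1)) * x^j +
        a * ∑ j ∈ Finset.range (n+1), g j * x^j := by
    rw [Finset.mul_sum, ← Finset.sum_add_distrib]
    apply Finset.sum_congr rfl
    intro j _
    unfold mulc; ring
  rw [h2, h1]; ring

theorem pack_mulc {w k : ℕ} (a : ℕ) (g : ℕ → ℕ) (hg : g (2^k - 1) = 0) :
    pack w k g * (2^w + a) = pack w k (mulc a g) := by
  rw [pack_eq_sum, pack_eq_sum, sum_mulc a (2^w) g hg]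

theorem coefs_zero (N μ s LM Y K a V : ℕ) (f : ℕ → ℕ) : coefs N μ s LM Y K 0 a V f = f V := rfl

theorem coefs_succ (N μ s LM Y K n a V : ℕ) (f : ℕ → ℕ) :
    coefs N μ s LM Y K (n+1) a V f =
      barrett N μ s LM (V * (Y + a)) fun V' => coefs N μ s LM Y K n (a + K) V' f := by
  have : coefs N μ s LM Y K (n+1) a V f = (barrett N μ s LM (Nat.mul V (Nat.add Y a)) fun V' =>
      force (Nat.add a K) fun a' => coefs N μ s LM Y K n a' V' f) := rfl
  rw [this]
  simp only [force_eq]
  rfl

theorem coefs_spec {N μ s w k K : ℕ} (hμ : 0 < μ) (hN : 0 < N) (h1 : μ * N ≤ 2^s)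
    (h2 : 2^s < (μ+1) * N) (h4 : 2^s * μ ≤ 2^w) (f : ℕ → ℕ) (n : ℕ) : ∀ (i a : ℕ) (g : ℕ → ℕ),
    i + n < 2^k → 2 * N * (1 + (a + K * n)) ≤ 2^s → (∀ j, g j < 2 * N) → (∀ j, i < j → g j = 0) →
    ∃ g' : ℕ → ℕ, coefs N μ s ((2^s - 1) * ones w k) (2^w) K n a (pack w k g) f = f (pack w k g') ∧
      (∀ j, g' j < 2 * N) ∧ (∀ j, i + n < j → g' j = 0) ∧
      ∀ x : ℕ, ∑ j ∈ Finset.range (2^k), g' j * x^j ≡
        (∑ j ∈ Finset.range (2^k), g j * x^j) * ∏ t ∈ Finset.range n, (x + (a + K * t)) [MOD N] := by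
  induction n with
  | zero =>
    intro i a g _ _ hg hz
    exact ⟨g, coefs_zero .., hg, hz, fun x => by simp [Nat.ModEq]⟩
  | succ n ih =>
    intro i a g hi hb hg hz
    have hv : ∀ j, mulc a g j < 2^s := by
      intro j
      unfold mulc
      have hgj := hg j
      have h5 : a * g j ≤ a * (2*N) := Nat.mul_le_mul_left _ hgj.le
      have h6 : (if j = 0 then 0 else g (j-1)) < 2*N := by
        split_ifs
        · omega
        · exact hg _
      have h7 : 2*N + a*(2*N) ≤ 2 * N * (1 + (a + K * (n+1))) := by nlinarith [Nat.zero_le (2*N*(K*(n+1)))]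
      omega
    have hg0 : g (2^k - 1) = 0 := hz _ (by omega)
    have hb' : 2 * N * (1 + ((a + K) + K * n)) ≤ 2^s := by
      refine le_trans (le_of_eq ?_) hb; ring
    obtain ⟨g', e1, e2, e3, e4⟩ := ih (i+1) (a + K) (fun j => red N μ s (mulc a g j)) (by omega) hb'
      (fun j => red_lt hN h1 h2 (hv j))
      (fun j hj => by
        have e5 : g j = 0 := hz j (by omega)
        have e6 : g (j-1) = 0 := hz (j-1) (by omega)
        have : mulc a g j = 0 := by unfold mulc; rw [e5, e6]; simp
        show red N μ s (mulc a g j) = 0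
        rw [this, red_zero])
    refine ⟨g', ?_, e2, fun j hj => e3 j (by omega), ?_⟩
    · rw [coefs_succ, pack_mulc a g hg0, barrett_pack hμ h1 h4 (fun m _ => hv m), e1]
    · intro x
      refine (e4 x).trans ?_
      have h8 : ∑ j ∈ Finset.range (2^k), red N μ s (mulc a g j) * x^j ≡
          ∑ j ∈ Finset.range (2^k), mulc a g j * x^j [MOD N] :=
        Nat.ModEq.sum (fun j _ => (red_modEq h1).mul_right _)
      rw [sum_mulc a x g hg0] at h8
      refine (h8.mul_right _).trans ?_
      apply congrArg (· % N)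
      rw [Finset.prod_range_succ']
      have : ∏ t ∈ Finset.range n, (x + (a + K * (t+1))) = ∏ t ∈ Finset.range n, (x + (a + K + K * t)) := by
        apply Finset.prod_congr rfl
        intro t _; ring
      rw [this]; ring

/-- slotwise powers. -/
def pw (N μ s : ℕ) : ℕ → ℕ → ℕ
  | 0, _ => 1
  | j+1, m => red N μ s (pw N μ s j m * m)

theorem pw_lt {N μ s : ℕ} (hN : 0 < N) (h1 : μ * N ≤ 2^s) (h2 : 2^s < (μ+1) * N) {k : ℕ}
    (hk : 2 * N * 2^k ≤ 2^s) (j : ℕ) {m : ℕ} (hm : m < 2^k) : pw N μ s j m < 2 * N := by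
  induction j with
  | zero => simp only [pw]; omega
  | succ j ih =>
    simp only [pw]
    apply red_lt hN h1 h2
    have h3 : pw N μ s j m * m ≤ (2*N) * m := Nat.mul_le_mul_right _ ih.le
    have h4 : 2*N*m < 2*N*2^k := Nat.mul_lt_mul_of_pos_left hm (by omega)
    omega

theorem pw_modEq {N μ s : ℕ} (h1 : μ * N ≤ 2^s) (j m : ℕ) : pw N μ s j m ≡ m^j [MOD N] := by
  induction j with
  | zero => simp [pw, Nat.ModEq]
  | succ j ih =>
    rw [pow_succ]
    exact (red_modEq h1).trans (ih.mul_right _)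

theorem withPowers_spec {N μ s w k : ℕ} (hμ : 0 < μ) (hN : 0 < N) (h1 : μ * N ≤ 2^s)
    (h2 : 2^s < (μ+1) * N) (h4 : 2^s * μ ≤ 2^w) (hk : 2 * N * 2^k ≤ 2^s) (n : ℕ) :
    ∀ (i : ℕ) (f : List ℕ → ℕ),
    withPowers N μ s ((2^s - 1) * ones w k) ((List.range k).map fun b => maskR w b k) n
      (pack w k (pw N μ s i)) f = f ((List.range' i n).map fun j => pack w k (pw N μ s j)) := by
  have hs : 2^s ≤ 2^w := by
    calc 2^s = 2^s * 1 := by ring
      _ ≤ 2^s * μ := Nat.mul_le_mul_left _ hμ
      _ ≤ 2^w := h4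
  induction n with
  | zero => intro i f; rfl
  | succ n ih =>
    intro i f
    have e0 : ∀ P, withPowers N μ s ((2^s - 1) * ones w k) ((List.range k).map fun b => maskR w b k) (n+1)
      P f = (force P fun P =>
      barrett N μ s ((2^s - 1) * ones w k) (idx P ((List.range k).map fun b => maskR w b k)) fun P' =>
        withPowers N μ s ((2^s - 1) * ones w k) ((List.range k).map fun b => maskR w b k) n P'
          (fun l => f (P :: l))) := fun P => rfl
    have hlt : ∀ m < 2^k, pw N μ s i m < 2^w := by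
      intro m hm
      have h5 := pw_lt hN h1 h2 hk i hm
      have h6 : 2 * N ≤ 2 * N * 2^k := Nat.le_mul_of_pos_right _ (by positivity)
      omega
    have hlt2 : ∀ m < 2^k, pw N μ s i m * m < 2^s := by
      intro m hm
      have h5 := pw_lt hN h1 h2 hk i hm
      have h6 : pw N μ s i m * m ≤ (2*N) * m := Nat.mul_le_mul_right _ h5.le
      have h7 : 2*N*m < 2*N*2^k := Nat.mul_lt_mul_of_pos_left hm (by omega)
      omega
    rw [e0, force_eq, idx_masks hlt, barrett_pack hμ h1 h4 hlt2]
    have e1 : pack w k (fun m => red N μ s (pw N μ s i m * m)) = pack w k (pw N μ s (i+1)) := rfl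
    rw [e1, ih (i+1), List.range'_succ, List.map_cons]

/-- dot product of a list with a coefficient function. -/
def dotL : List ℕ → (ℕ → ℕ) → ℕ
  | [], _ => 0
  | P :: t, g => g 0 * P + dotL t (fun j => g (j+1))

theorem evalP_spec (Y : ℕ) (hY : 0 < Y) (l : List ℕ) : ∀ (n : ℕ) (g : ℕ → ℕ) (acc : ℕ),
    (∀ j, g j < Y) → (∀ j, n ≤ j → g j = 0) →
    evalP Y l (∑ j ∈ Finset.range n, g j * Y^j) acc = acc + dotL l g := by
  induction l with
  | nil => intro n g acc _ _; rfl
  | cons P t ih =>
    intro n g acc hg hz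
    have e0 : ∀ V, evalP Y (P :: t) V acc = (force (Nat.add acc (Nat.mul (Nat.mod V Y) P)) fun acc' =>
      force (Nat.div V Y) fun V' => evalP Y t V' acc') := fun V => rfl
    have e1 : ∀ V, evalP Y (P :: t) V acc = evalP Y t (V / Y) (acc + (V % Y) * P) := by
      intro V; rw [e0, force_eq, force_eq]; rfl
    rw [e1]
    cases n with
    | zero =>
      have hg0 : g 0 = 0 := hz 0 le_rfl
      simp only [Finset.range_zero, Finset.sum_empty, Nat.zero_div, Nat.zero_mod, zero_mul, add_zero]
      have := ih 0 (fun j => g (j+1)) acc (fun j => hg _) (fun j _ => hz _ (by omega))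
      simp only [Finset.range_zero, Finset.sum_empty] at this
      rw [this]
      simp [dotL, hg0]
    | succ n =>
      have e2 : ∑ j ∈ Finset.range (n+1), g j * Y^j = g 0 + Y * ∑ j ∈ Finset.range n, g (j+1) * Y^j := by
        rw [Finset.sum_range_succ', Finset.mul_sum]
        simp only [pow_zero, mul_one]
        rw [add_comm]
        congr 1
        apply Finset.sum_congr rfl
        intro j _
        rw [pow_succ]; ring
      rw [e2, Nat.add_mul_div_left _ _ hY, Nat.div_eq_of_lt (hg 0), zero_add, Nat.add_mul_mod_self_left,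
        Nat.mod_eq_of_lt (hg 0), ih n (fun j => g (j+1)) _ (fun j => hg _) (fun j hj => hz _ (by omega))]
      simp only [dotL]; ring

theorem dotL_pack {w k : ℕ} (p : ℕ → ℕ → ℕ) (L : ℕ) : ∀ (i : ℕ) (g : ℕ → ℕ),
    dotL ((List.range' i L).map fun j => pack w k (p j)) g =
      pack w k (fun m => ∑ j ∈ Finset.range L, g j * p (i + j) m) := by
  induction L with
  | zero => intro i g; simp [dotL, pack_zero]
  | succ L ih =>
    intro i g
    rw [List.range'_succ, List.map_cons]
    simp only [dotL]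
    rw [ih (i+1) (fun j => g (j+1)), ← pack_mul, ← pack_add]
    apply pack_congr
    intro m _
    rw [Finset.sum_range_succ']
    simp only [add_zero]
    rw [add_comm]
    congr 1
    apply Finset.sum_congr rfl
    intro j _
    rw [show i + 1 + j = i + (j+1) by ring]

theorem prodSlots_pack {N w : ℕ} (k : ℕ) : ∀ f : ℕ → ℕ, (∀ m < 2^k, f m < 2^w) →
    prodSlots N w k (pack w k f) ≡ ∏ m ∈ Finset.range (2^k), f m [MOD N] := by
  induction k with
  | zero =>
    intro f _
    have : prodSlots N w 0 (pack w 0 f) = f 0 % N := rfl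
    rw [this]; simp [Nat.ModEq]
  | succ k ih =>
    intro f hf
    have h0 : ∀ V, prodSlots N w (k+1) V = (prodSlots N w k (V % 2^(w*2^k)) *
        prodSlots N w k (V / 2^(w*2^k))) % N := by
      intro V
      have : prodSlots N w (k+1) V = force V fun V =>
        Nat.mod (Nat.mul (prodSlots N w k (Nat.mod V (Nat.pow 2 (Nat.mul w (Nat.pow 2 k)))))
        (prodSlots N w k (Nat.div V (Nat.pow 2 (Nat.mul w (Nat.pow 2 k)))))) N := rfl
      rw [this, force_eq]; rfl
    have hf1 : ∀ m < 2^k, f m < 2^w := fun m hm => hf m (by rw [pow_succ]; omega)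
    have hf2 : ∀ m < 2^k, f (m+2^k) < 2^w := fun m hm => hf _ (by rw [pow_succ]; omega)
    have e1 : pack w (k+1) f % 2^(w*2^k) = pack w k f := by
      simp only [pack]
      rw [Nat.add_mul_mod_self_left, Nat.mod_eq_of_lt (pack_lt hf1)]
    have e2 : pack w (k+1) f / 2^(w*2^k) = pack w k (fun m => f (m+2^k)) := by
      simp only [pack]
      rw [Nat.add_mul_div_left _ _ (by positivity), Nat.div_eq_of_lt (pack_lt hf1), zero_add]
    rw [h0, e1, e2]
    have hk : 2^(k+1) = 2^k + 2^k := by rw [pow_succ]; ring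
    rw [hk, Finset.prod_range_add]
    refine (Nat.mod_modEq _ _).trans ?_
    apply Nat.ModEq.mul (ih f hf1)
    have := ih (fun m => f (m+2^k)) hf2
    refine this.trans ?_
    apply congrArg (· % N)
    apply Finset.prod_congr rfl
    intro m _; rw [add_comm]

/-- product of `c` consecutive integers starting at `a`. -/
def prodR (a c : ℕ) : ℕ := ∏ j ∈ Finset.range c, (a + j)

theorem prodR_add (a c d : ℕ) : prodR a (c + d) = prodR a c * prodR (a + c) d := by
  unfold prodR
  rw [Finset.prod_range_add]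
  congr 1
  apply Finset.prod_congr rfl
  intro j _; ring

theorem prodR_grid (c K r : ℕ) :
    ∏ m ∈ Finset.range K, ∏ t ∈ Finset.range r, (m + (c + K * t)) = prodR c (K * r) := by
  rw [Finset.prod_comm]
  induction r with
  | zero => simp [prodR]
  | succ r ih =>
    rw [Finset.prod_range_succ, ih, Nat.mul_succ, prodR_add]
    congr 1
    unfold prodR
    apply Finset.prod_congr rfl
    intro m _; ring

theorem batch_spec {N μ s w k kr r c : ℕ} (hμ : 0 < μ) (hN : 0 < N) (h1 : μ * N ≤ 2^s)
    (h2 : 2^s < (μ+1) * N) (h4 : 2^s * μ ≤ 2^w) (hk : 2 * N * 2^k ≤ 2^s) (hr : r < 2^kr)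
    (hw : (r+1) * (2*N) * (2*N) < 2^w) (hb : 2 * N * (1 + (c + 2^k * r)) ≤ 2^s) (F : ℕ → ℕ) :
    ∃ V, coefs N μ s ((2^s - 1) * ones w kr) (2^w) (2^k) r c 1 F = F V ∧
      prodSlots N w k (evalP (2^w) ((List.range' 0 (r+1)).map fun j => pack w k (pw N μ s j)) V 0) ≡
        prodR c (2^k * r) [MOD N] := by
  have hone : (1:ℕ) = pack w kr (fun j => if j = 0 then 1 else 0) := by
    rw [pack_eq_sum]
    simp
  obtain ⟨g, e1, e2, e3, e4⟩ := coefs_spec (k := kr) (K := 2^k) hμ hN h1 h2 h4 F r 0 c
    (fun j => if j = 0 then 1 else 0) (by omega) hb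
    (fun j => by split_ifs <;> omega) (fun j hj => by simp; omega)
  have hwpos : 0 < 2^w := by positivity
  have h2N : 2 * N < 2^w := by
    have : 1 * (2 * N) * 1 ≤ (r+1) * (2*N) * (2*N) := by
      apply Nat.mul_le_mul _ (by omega)
      exact Nat.mul_le_mul_right _ (by omega)
    omega
  refine ⟨pack w kr g, ?_, ?_⟩
  · rw [← e1, ← hone]
  · rw [pack_eq_sum w kr g, evalP_spec (2^w) hwpos _ (2^kr) g 0 (fun j => lt_trans (e2 j) h2N)
      (fun j hj => e3 j (by omega)), zero_add, dotL_pack]
    have hbd : ∀ m < 2^k, ∑ j ∈ Finset.range (r+1), g j * pw N μ s (0 + j) m < 2^w := by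
      intro m hm
      calc ∑ j ∈ Finset.range (r+1), g j * pw N μ s (0 + j) m
          ≤ ∑ j ∈ Finset.range (r+1), (2*N) * (2*N) :=
            Finset.sum_le_sum (fun j _ => Nat.mul_le_mul (e2 j).le (pw_lt hN h1 h2 hk _ hm).le)
        _ = (r+1) * (2*N) * (2*N) := by simp; ring
        _ < 2^w := hw
    refine (prodSlots_pack k _ hbd).trans ?_
    rw [← prodR_grid]
    apply Nat.ModEq.prod
    intro m _
    have h5 : ∑ j ∈ Finset.range (r+1), g j * pw N μ s (0 + j) m ≡
        ∑ j ∈ Finset.range (r+1), g j * m^j [MOD N] := by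
      apply Nat.ModEq.sum
      intro j _
      rw [zero_add]
      exact (pw_modEq h1 j m).mul_left _
    refine h5.trans ?_
    have h6 : ∑ j ∈ Finset.range (r+1), g j * m^j = ∑ j ∈ Finset.range (2^kr), g j * m^j := by
      apply Finset.sum_subset
      · intro j hj
        simp only [Finset.mem_range] at *
        omega
      · intro j _ hj
        simp only [Finset.mem_range] at hj
        rw [e3 j (by omega), zero_mul]
    rw [h6]
    refine (e4 m).trans ?_
    apply congrArg (· % N)
    have h7 : ∑ j ∈ Finset.range (2^kr), (if j = 0 then 1 else 0) * m^j = 1 := by simp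
    rw [h7, one_mul]

theorem batches_spec {N μ s w k kr r : ℕ} (hμ : 0 < μ) (hN : 0 < N) (h1 : μ * N ≤ 2^s)
    (h2 : 2^s < (μ+1) * N) (h4 : 2^s * μ ≤ 2^w) (hk : 2 * N * 2^k ≤ 2^s) (hr : r < 2^kr)
    (hw : (r+1) * (2*N) * (2*N) < 2^w) (n : ℕ) : ∀ (c acc : ℕ),
    2 * N * (1 + (c + 2^k * r * n)) ≤ 2^s →
    batches N μ s w k ((2^s - 1) * ones w kr) (2^w) (2^k) r
      ((List.range' 0 (r+1)).map fun j => pack w k (pw N μ s j)) n c acc ≡
        acc * prodR c (2^k * r * n) [MOD N] := by
  induction n with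
  | zero =>
    intro c acc _
    have : batches N μ s w k ((2^s - 1) * ones w kr) (2^w) (2^k) r
      ((List.range' 0 (r+1)).map fun j => pack w k (pw N μ s j)) 0 c acc = acc := rfl
    rw [this]; simp [prodR, Nat.ModEq]
  | succ n ih =>
    intro c acc hb
    have e0 : batches N μ s w k ((2^s - 1) * ones w kr) (2^w) (2^k) r
      ((List.range' 0 (r+1)).map fun j => pack w k (pw N μ s j)) (n+1) c acc =
      coefs N μ s ((2^s - 1) * ones w kr) (2^w) (2^k) r c 1 fun V =>
      force (Nat.mod (Nat.mul acc (prodSlots N w k (evalP (2^w)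
        ((List.range' 0 (r+1)).map fun j => pack w k (pw N μ s j)) V 0))) N) fun acc' =>
      force (Nat.add c (Nat.mul (2^k) r)) fun c' => batches N μ s w k ((2^s - 1) * ones w kr) (2^w) (2^k) r
      ((List.range' 0 (r+1)).map fun j => pack w k (pw N μ s j)) n c' acc' := rfl
    have hb1 : 2 * N * (1 + (c + 2^k * r)) ≤ 2^s := by
      refine le_trans (Nat.mul_le_mul_left _ ?_) hb
      have : 2^k * r * 1 ≤ 2^k * r * (n+1) := Nat.mul_le_mul_left _ (by omega)
      omega
    have hb2 : 2 * N * (1 + ((c + 2^k * r) + 2^k * r * n)) ≤ 2^s := by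
      refine le_trans (le_of_eq ?_) hb; ring
    obtain ⟨V, e1, e2⟩ := batch_spec (c := c) hμ hN h1 h2 h4 hk hr hw hb1 (fun V =>
      force (Nat.mod (Nat.mul acc (prodSlots N w k (evalP (2^w)
        ((List.range' 0 (r+1)).map fun j => pack w k (pw N μ s j)) V 0))) N) fun acc' =>
      force (Nat.add c (Nat.mul (2^k) r)) fun c' => batches N μ s w k ((2^s - 1) * ones w kr) (2^w) (2^k) r
      ((List.range' 0 (r+1)).map fun j => pack w k (pw N μ s j)) n c' acc')
    rw [e0, e1]
    simp only [force_eq]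
    have e3 : Nat.add c (Nat.mul (2^k) r) = c + 2^k * r := rfl
    rw [e3]
    refine (ih (c + 2^k * r) _ hb2).trans ?_
    have e4 : 2^k * r * (n+1) = 2^k * r + 2^k * r * n := by ring
    rw [e4, prodR_add, ← mul_assoc]
    apply Nat.ModEq.mul_right
    refine (Nat.mod_modEq _ _).trans ?_
    exact e2.mul_left _

theorem rangeProd_spec {N μ s w k kr r n c0 : ℕ} (hμ : 0 < μ) (hN : 0 < N) (h1 : μ * N ≤ 2^s)
    (h2 : 2^s < (μ+1) * N) (h4 : 2^s * μ ≤ 2^w) (hk : 2 * N * 2^k ≤ 2^s) (hr : r < 2^kr)
    (hw : (r+1) * (2*N) * (2*N) < 2^w) (hb : 2 * N * (1 + (c0 + 2^k * r * n)) ≤ 2^s) :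
    rangeProd N μ s w k kr r n c0 ≡ prodR c0 (2^k * r * n) [MOD N] := by
  have e0 : rangeProd N μ s w k kr r n c0 = withPowers N μ s ((2^s - 1) * ones w k)
      ((List.range k).map fun b => maskR w b k) (r+1) (pack w k (pw N μ s 0)) (fun P =>
        batches N μ s w k ((2^s - 1) * ones w kr) (2^w) (2^k) r P n c0 1) := by
    have : pack w k (pw N μ s 0) = ones w k := by rw [ones_eq]; rfl
    rw [this]
    unfold rangeProd
    simp only [force_eq, forceList_eq]
    rfl
  rw [e0, withPowers_spec hμ hN h1 h2 h4 hk (r+1) 0]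
  refine (batches_spec hμ hN h1 h2 h4 hk hr hw n c0 1 hb).trans ?_
  rw [one_mul]

end Pool.Agent.CB
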