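import Pool.Agent.Lib.CB.Eval

set_option autoImplicit false

namespace Pool.Agent.CB

/-- modular power by repeated squaring, `fuel` bits. -/
def pm (N : ℕ) (fuel : ℕ) : ℕ → ℕ → ℕ :=
  Nat.rec (motive := fun _ => ℕ → ℕ → ℕ) (fun _ _ => 1)
    (fun _ ih a e => force a fun a => force e fun e =>
      Nat.mod (Nat.mul (cond (Nat.beq (Nat.mod e 2) 1) a 1) (ih (Nat.mod (Nat.mul a a) N) (Nat.div e 2))) N) fuel

theorem pm_spec (N : ℕ) (fuel : ℕ) : ∀ a e : ℕ, e < 2^fuel → pm N fuel a e ≡ a^e [MOD N] := by
  induction fuel with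
  | zero =>
    intro a e he
    have : e = 0 := by simpa using he
    subst this
    show 1 ≡ a^0 [MOD N]
    simp [Nat.ModEq]
  | succ n ih =>
    intro a e he
    have h1 : pm N (n+1) a e = ((cond (Nat.beq (e % 2) 1) a 1) * (pm N n (a * a % N) (e / 2))) % N := by
      have : pm N (n+1) a e = force a fun a => force e fun e =>
        Nat.mod (Nat.mul (cond (Nat.beq (Nat.mod e 2) 1) a 1) (pm N n (Nat.mod (Nat.mul a a) N) (Nat.div e 2))) N := rfl
      rw [this, force_eq, force_eq]; rfl
    have h2 := ih (a * a % N) (e / 2) (by rw [pow_succ] at he; omega)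
    have h3 : (a * a % N)^(e/2) ≡ (a*a)^(e/2) [MOD N] := (Nat.mod_modEq _ _).pow _
    have h4 : a^e = (cond (Nat.beq (e % 2) 1) a 1) * (a*a)^(e/2) := by
      have h5 : a^e = a^(e%2) * (a*a)^(e/2) := by
        rw [← pow_two, ← pow_mul, ← pow_add, Nat.mod_add_div]
      rw [h5]
      rcases Nat.mod_two_eq_zero_or_one e with h | h
      · rw [h]; simp [Nat.beq]
      · rw [h]; simp
    rw [h1, h4]
    refine (Nat.mod_modEq _ _).trans ?_
    exact (h2.trans h3).mul_left _

theorem pwq {n v : ℕ} (h : pm 248543020489 40 19 n = v) (hn : n < 2^40) :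
    (19 : ZMod 248543020489)^n = (v : ZMod 248543020489) := by
  have : ((19^n : ℕ) : ZMod 248543020489) = (v : ZMod 248543020489) := by
    rw [ZMod.natCast_eq_natCast_iff, ← h]
    exact (pm_spec _ _ _ _ hn).symm
  simpa using this

theorem pwq_ne {n v : ℕ} (h : pm 248543020489 40 19 n = v) (hn : n < 2^40) (hv : v ≠ 1)
    (hv' : v < 248543020489) :
    (19 : ZMod 248543020489)^n ≠ 1 := by
  rw [pwq h hn]
  intro h1
  have h2 : ((v : ℕ) : ZMod 248543020489) = ((1 : ℕ) : ZMod 248543020489) := by simpa using h1
  rw [ZMod.natCast_eq_natCast_iff, Nat.ModEq, Nat.mod_eq_of_lt hv'] at h2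
  norm_num at h2
  exact hv h2

theorem prime_q : Nat.Prime 248543020489 := by
  apply lucas_primality 248543020489 (19 : ZMod 248543020489)
  · have := pwq (n := 248543020489 - 1) (v := 1) (by decide +kernel) (by norm_num)
    simpa using this
  · intro r hr hd
    have h1 : 248543020489 - 1 = 2^3 * 3 * 7 * 937 * 1223 * 1291 := by norm_num
    rw [h1] at hd
    have h937 : Nat.Prime 937 := by norm_num
    have h1223 : Nat.Prime 1223 := by norm_num
    have h1291 : Nat.Prime 1291 := by norm_num
    have h7 : Nat.Prime 7 := by norm_num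
    have key : r = 2 ∨ r = 3 ∨ r = 7 ∨ r = 937 ∨ r = 1223 ∨ r = 1291 := by
      rcases (Nat.Prime.dvd_mul hr).1 hd with hd | hd
      · rcases (Nat.Prime.dvd_mul hr).1 hd with hd | hd
        · rcases (Nat.Prime.dvd_mul hr).1 hd with hd | hd
          · rcases (Nat.Prime.dvd_mul hr).1 hd with hd | hd
            · rcases (Nat.Prime.dvd_mul hr).1 hd with hd | hd
              · have := hr.dvd_of_dvd_pow hd
                left; exact (Nat.prime_dvd_prime_iff_eq hr Nat.prime_two).1 this
              · right; left; exact (Nat.prime_dvd_prime_iff_eq hr Nat.prime_three).1 hd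
            · right; right; left; exact (Nat.prime_dvd_prime_iff_eq hr h7).1 hd
          · right; right; right; left; exact (Nat.prime_dvd_prime_iff_eq hr h937).1 hd
        · right; right; right; right; left; exact (Nat.prime_dvd_prime_iff_eq hr h1223).1 hd
      · right; right; right; right; right; exact (Nat.prime_dvd_prime_iff_eq hr h1291).1 hd
    rcases key with rfl | rfl | rfl | rfl | rfl | rfl
    · exact pwq_ne (n := (248543020489 - 1)/2) (v := 248543020488) (by decide +kernel) (by norm_num) (by norm_num) (by norm_num)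
    · exact pwq_ne (n := (248543020489 - 1)/3) (v := 171536117003) (by decide +kernel) (by norm_num) (by norm_num) (by norm_num)
    · exact pwq_ne (n := (248543020489 - 1)/7) (v := 150589612905) (by decide +kernel) (by norm_num) (by norm_num) (by norm_num)
    · exact pwq_ne (n := (248543020489 - 1)/937) (v := 207453625741) (by decide +kernel) (by norm_num) (by norm_num) (by norm_num)
    · exact pwq_ne (n := (248543020489 - 1)/1223) (v := 102601178084) (by decide +kernel) (by norm_num) (by norm_num) (by norm_num)
    · exact pwq_ne (n := (248543020489 - 1)/1291) (v := 228110987569) (by decide +kernel) (by norm_num) (by norm_num) (by norm_num)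

end Pool.Agent.CB
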