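import Pool.Agent.Lib.CB.Eval

set_option autoImplicit false

namespace Pool.Agent.CB

theorem pa : rangeProd 34766383 129538917 52 80 11 7 127 3 1 = 22070102 ∧
    rangeProd 34766383 129538917 52 80 11 7 71 1 780289 = 16838085 ∧
    rangeProd 34766383 129538917 52 80 5 6 2 1 925697 = 12137421 ∧
    rangeProd 34766383 129538917 52 80 0 7 29 1 925761 = 31017116 := by
  refine ⟨?_, ?_, ?_, ?_⟩
  all_goals decide +kernel

theorem pb : rangeProd 34766383 129538917 52 80 11 7 127 3 925790 = 29145624 ∧
    rangeProd 34766383 129538917 52 80 11 7 71 1 1706078 = 10578138 ∧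
    rangeProd 34766383 129538917 52 80 5 6 2 1 1851486 = 6764066 ∧
    rangeProd 34766383 129538917 52 80 0 7 29 1 1851550 = 90106 := by
  refine ⟨?_, ?_, ?_, ?_⟩
  all_goals decide +kernel

theorem pc : rangeProd 34766383 129538917 52 80 11 7 1 1 1 = 17501993 ∧
    rangeProd 34766383 129538917 52 80 5 6 47 1 2049 = 25011589 ∧
    rangeProd 34766383 129538917 52 80 0 7 22 1 3553 = 27704062 := by
  refine ⟨?_, ?_, ?_⟩
  all_goals decide +kernel

theorem pd : rangeProd 34766383 129538917 52 80 11 7 1 1 3575 = 23340228 ∧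
    rangeProd 34766383 129538917 52 80 5 6 47 1 5623 = 27045540 ∧
    rangeProd 34766383 129538917 52 80 0 7 22 1 7127 = 6344197 := by
  refine ⟨?_, ?_, ?_⟩
  all_goals decide +kernel

end Pool.Agent.CB
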