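import Pool.Agent.Lib.CB.Eval

set_option autoImplicit false

namespace Pool.Agent.CB

theorem qb : rangeProd 248543020489 74219521 64 96 11 7 127 33 17383192 = 149511892493 ∧
    rangeProd 248543020489 74219521 64 96 11 7 127 33 25966360 = 106468137377 ∧
    rangeProd 248543020489 74219521 64 96 11 7 105 1 34549528 = 146980163947 ∧
    rangeProd 248543020489 74219521 64 96 5 6 56 1 34764568 = 197904473295 ∧
    rangeProd 248543020489 74219521 64 96 0 7 23 1 34766360 = 143616940491 := by
  refine ⟨?_, ?_, ?_, ?_, ?_⟩
  all_goals decide +kernel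

end Pool.Agent.CB
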