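import Pool.Agent.Lib.CB.Reduce
import Pool.Agent.Lib.CB.PrimeQ
import Pool.Agent.Lib.CB.ValsQA
import Pool.Agent.Lib.CB.ValsQB
import Pool.Agent.Lib.CB.ValsP

set_option autoImplicit false

namespace Pool.Agent.CB

theorem prime_p : Nat.Prime 34766383 := by norm_num

theorem prodR_step' {N a c v d v' c' v'' s : ℕ} (h : prodR a c ≡ v [MOD N]) (hs : a + c = s)
    (h' : prodR s d ≡ v' [MOD N]) (e1 : c + d = c') (e2 : v * v' % N = v'') :
    prodR a c' ≡ v'' [MOD N] := by
  subst hs
  exact prodR_step h h' e1 e2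

theorem chunkq {k kr r n c0 v d : ℕ} (h : rangeProd 248543020489 74219521 64 96 k kr r n c0 = v)
    (hk : k ≤ 11) (hkr : r < 2^kr) (hr : r ≤ 127) (hd : 2^k*r*n = d) (hb : 1 + (c0 + d) ≤ 37000000) :
    prodR c0 d ≡ v [MOD 248543020489] := by
  rw [← h, ← hd]
  rw [← hd] at hb
  refine (rangeProd_spec (by norm_num) (by norm_num) (by norm_num) (by norm_num) (by norm_num) ?_ hkr ?_ ?_).symm
  · calc 2 * 248543020489 * 2^k ≤ 2 * 248543020489 * 2^11 :=
        Nat.mul_le_mul_left _ (Nat.pow_le_pow_right (by norm_num) hk)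
      _ ≤ 2^64 := by norm_num
  · calc (r+1) * (2 * 248543020489) * (2 * 248543020489) ≤ 128 * (2 * 248543020489) * (2 * 248543020489) :=
        Nat.mul_le_mul_right _ (Nat.mul_le_mul_right _ (by omega))
      _ < 2^96 := by norm_num
  · calc 2 * 248543020489 * (1 + (c0 + 2^k*r*n)) ≤ 2 * 248543020489 * 37000000 := Nat.mul_le_mul_left _ hb
      _ ≤ 2^64 := by norm_num

theorem chunkp {k kr r n c0 v d : ℕ} (h : rangeProd 34766383 129538917 52 80 k kr r n c0 = v)
    (hk : k ≤ 11) (hkr : r < 2^kr) (hr : r ≤ 127) (hd : 2^k*r*n = d) (hb : 1 + (c0 + d) ≤ 37000000) :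
    prodR c0 d ≡ v [MOD 34766383] := by
  rw [← h, ← hd]
  rw [← hd] at hb
  refine (rangeProd_spec (by norm_num) (by norm_num) (by norm_num) (by norm_num) (by norm_num) ?_ hkr ?_ ?_).symm
  · calc 2 * 34766383 * 2^k ≤ 2 * 34766383 * 2^11 :=
        Nat.mul_le_mul_left _ (Nat.pow_le_pow_right (by norm_num) hk)
      _ ≤ 2^52 := by norm_num
  · calc (r+1) * (2 * 34766383) * (2 * 34766383) ≤ 128 * (2 * 34766383) * (2 * 34766383) :=
        Nat.mul_le_mul_right _ (Nat.mul_le_mul_right _ (by omega))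
      _ < 2^80 := by norm_num
  · calc 2 * 34766383 * (1 + (c0 + 2^k*r*n)) ≤ 2 * 34766383 * 37000000 := Nat.mul_le_mul_left _ hb
      _ ≤ 2^52 := by norm_num

theorem prod_QA : prodR 1 17383191 ≡ 87769181718 [MOD 248543020489] := by
  obtain ⟨x1, x2, x3, x4, x5⟩ := qa
  have h1 : prodR 1 8583168 ≡ 113594475918 [MOD 248543020489] := chunkq x1 (by norm_num) (by norm_num) (by norm_num) (by norm_num) (by norm_num)
  have h2 : prodR 1 17166336 ≡ 132774317345 [MOD 248543020489] :=
    prodR_step' h1 (by norm_num) (chunkq (d := 8583168) x2 (by norm_num) (by norm_num) (by norm_num) (by norm_num) (by norm_num)) (by norm_num) (by norm_num)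
  have h3 : prodR 1 17381376 ≡ 211771240143 [MOD 248543020489] :=
    prodR_step' h2 (by norm_num) (chunkq (d := 215040) x3 (by norm_num) (by norm_num) (by norm_num) (by norm_num) (by norm_num)) (by norm_num) (by norm_num)
  have h4 : prodR 1 17383168 ≡ 131217263853 [MOD 248543020489] :=
    prodR_step' h3 (by norm_num) (chunkq (d := 1792) x4 (by norm_num) (by norm_num) (by norm_num) (by norm_num) (by norm_num)) (by norm_num) (by norm_num)
  have h5 : prodR 1 17383191 ≡ 87769181718 [MOD 248543020489] :=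
    prodR_step' h4 (by norm_num) (chunkq (d := 23) x5 (by norm_num) (by norm_num) (by norm_num) (by norm_num) (by norm_num)) (by norm_num) (by norm_num)
  exact h5

theorem prod_QB : prodR 17383192 17383191 ≡ 160773838771 [MOD 248543020489] := by
  obtain ⟨x1, x2, x3, x4, x5⟩ := qb
  have h1 : prodR 17383192 8583168 ≡ 149511892493 [MOD 248543020489] := chunkq x1 (by norm_num) (by norm_num) (by norm_num) (by norm_num) (by norm_num)
  have h2 : prodR 17383192 17166336 ≡ 55947653435 [MOD 248543020489] :=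
    prodR_step' h1 (by norm_num) (chunkq (d := 8583168) x2 (by norm_num) (by norm_num) (by norm_num) (by norm_num) (by norm_num)) (by norm_num) (by norm_num)
  have h3 : prodR 17383192 17381376 ≡ 234286307404 [MOD 248543020489] :=
    prodR_step' h2 (by norm_num) (chunkq (d := 215040) x3 (by norm_num) (by norm_num) (by norm_num) (by norm_num) (by norm_num)) (by norm_num) (by norm_num)
  have h4 : prodR 17383192 17383168 ≡ 237534360910 [MOD 248543020489] :=
    prodR_step' h3 (by norm_num) (chunkq (d := 1792) x4 (by norm_num) (by norm_num) (by norm_num) (by norm_num) (by norm_num)) (by norm_num) (by norm_num)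
  have h5 : prodR 17383192 17383191 ≡ 160773838771 [MOD 248543020489] :=
    prodR_step' h4 (by norm_num) (chunkq (d := 23) x5 (by norm_num) (by norm_num) (by norm_num) (by norm_num) (by norm_num)) (by norm_num) (by norm_num)
  exact h5

theorem prod_PA : prodR 1 925789 ≡ 19382002 [MOD 34766383] := by
  obtain ⟨x1, x2, x3, x4⟩ := pa
  have h1 : prodR 1 780288 ≡ 22070102 [MOD 34766383] := chunkp x1 (by norm_num) (by norm_num) (by norm_num) (by norm_num) (by norm_num)
  have h2 : prodR 1 925696 ≡ 3117457 [MOD 34766383] :=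
    prodR_step' h1 (by norm_num) (chunkp (d := 145408) x2 (by norm_num) (by norm_num) (by norm_num) (by norm_num) (by norm_num)) (by norm_num) (by norm_num)
  have h3 : prodR 1 925760 ≡ 34185879 [MOD 34766383] :=
    prodR_step' h2 (by norm_num) (chunkp (d := 64) x3 (by norm_num) (by norm_num) (by norm_num) (by norm_num) (by norm_num)) (by norm_num) (by norm_num)
  have h4 : prodR 1 925789 ≡ 19382002 [MOD 34766383] :=
    prodR_step' h3 (by norm_num) (chunkp (d := 29) x4 (by norm_num) (by norm_num) (by norm_num) (by norm_num) (by norm_num)) (by norm_num) (by norm_num)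
  exact h4

theorem prod_PB : prodR 925790 925789 ≡ 14498413 [MOD 34766383] := by
  obtain ⟨x1, x2, x3, x4⟩ := pb
  have h1 : prodR 925790 780288 ≡ 29145624 [MOD 34766383] := chunkp x1 (by norm_num) (by norm_num) (by norm_num) (by norm_num) (by norm_num)
  have h2 : prodR 925790 925696 ≡ 25708794 [MOD 34766383] :=
    prodR_step' h1 (by norm_num) (chunkp (d := 145408) x2 (by norm_num) (by norm_num) (by norm_num) (by norm_num) (by norm_num)) (by norm_num) (by norm_num)
  have h3 : prodR 925790 925760 ≡ 24718918 [MOD 34766383] :=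
    prodR_step' h2 (by norm_num) (chunkp (d := 64) x3 (by norm_num) (by norm_num) (by norm_num) (by norm_num) (by norm_num)) (by norm_num) (by norm_num)
  have h4 : prodR 925790 925789 ≡ 14498413 [MOD 34766383] :=
    prodR_step' h3 (by norm_num) (chunkp (d := 29) x4 (by norm_num) (by norm_num) (by norm_num) (by norm_num) (by norm_num)) (by norm_num) (by norm_num)
  exact h4

theorem prod_PC : prodR 1 3574 ≡ 26569489 [MOD 34766383] := by
  obtain ⟨x1, x2, x3⟩ := pc
  have h1 : prodR 1 2048 ≡ 17501993 [MOD 34766383] := chunkp x1 (by norm_num) (by norm_num) (by norm_num) (by norm_num) (by norm_num)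
  have h2 : prodR 1 3552 ≡ 18451531 [MOD 34766383] :=
    prodR_step' h1 (by norm_num) (chunkp (d := 1504) x2 (by norm_num) (by norm_num) (by norm_num) (by norm_num) (by norm_num)) (by norm_num) (by norm_num)
  have h3 : prodR 1 3574 ≡ 26569489 [MOD 34766383] :=
    prodR_step' h2 (by norm_num) (chunkp (d := 22) x3 (by norm_num) (by norm_num) (by norm_num) (by norm_num) (by norm_num)) (by norm_num) (by norm_num)
  exact h3

theorem prod_PD : prodR 3575 3574 ≡ 21154711 [MOD 34766383] := by
  obtain ⟨x1, x2, x3⟩ := pd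
  have h1 : prodR 3575 2048 ≡ 23340228 [MOD 34766383] := chunkp x1 (by norm_num) (by norm_num) (by norm_num) (by norm_num) (by norm_num)
  have h2 : prodR 3575 3552 ≡ 25818080 [MOD 34766383] :=
    prodR_step' h1 (by norm_num) (chunkp (d := 1504) x2 (by norm_num) (by norm_num) (by norm_num) (by norm_num) (by norm_num)) (by norm_num) (by norm_num)
  have h3 : prodR 3575 3574 ≡ 21154711 [MOD 34766383] :=
    prodR_step' h2 (by norm_num) (chunkp (d := 22) x3 (by norm_num) (by norm_num) (by norm_num) (by norm_num) (by norm_num)) (by norm_num) (by norm_num)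
  exact h3

theorem mod_q : (((34766382).choose 17383191 : ℕ) : ℤ) ≡ (-1)^17383191 [ZMOD ((248543020489 : ℕ) : ℤ)] := by
  have : Fact (Nat.Prime 248543020489) := ⟨prime_q⟩
  obtain ⟨h1, h2⟩ := central (N := 248543020489) (h := 17383191) (by norm_num) prod_QA prod_QB
  have h3 : ((160773838771 : ℕ) : ZMod 248543020489) = - ((87769181718 : ℕ) : ZMod 248543020489) := by
    rw [eq_neg_iff_add_eq_zero, ← Nat.cast_add]
    exact (ZMod.natCast_eq_zero_iff _ _).2 (by norm_num)
  have h4 : ((((2*17383191).choose 17383191 : ℕ)) : ZMod 248543020489) = -1 := by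
    rw [h3] at h1
    have : ((87769181718 : ℕ) : ZMod 248543020489) * ((((2*17383191).choose 17383191 : ℕ)) : ZMod 248543020489)
        = ((87769181718 : ℕ) : ZMod 248543020489) * (-1) := by rw [h1]; ring
    exact mul_left_cancel₀ h2 this
  have h5 : (-1 : ℤ)^17383191 = -1 := Odd.neg_one_pow (by decide)
  rw [h5]
  have h6 : 2*17383191 = 34766382 := by norm_num
  rw [h6] at h4
  apply (ZMod.intCast_eq_intCast_iff _ _ _).1
  push_cast
  exact h4

theorem fin_three {N : ℕ} [Fact N.Prime] {a1 b1 a2 b2 A B x y z : ℕ}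
    (h1 : (a1 : ZMod N) * (x : ZMod N) = (b1 : ZMod N)) (h2 : (a1 : ZMod N) ≠ 0)
    (h3 : (a2 : ZMod N) * (y : ZMod N) = (b2 : ZMod N)) (h4 : (a2 : ZMod N) ≠ 0)
    (h5 : (A : ZMod N) * (z : ZMod N) = (B : ZMod N) * (y : ZMod N)) (h6 : (A : ZMod N) ≠ 0)
    (h : (b1 * B * b2) % N = (A * a1 * a2) % N) : ((z : ℕ) : ℤ) * ((x : ℕ) : ℤ) ≡ 1 [ZMOD (N : ℤ)] := by
  apply (ZMod.intCast_eq_intCast_iff _ _ _).1
  push_cast
  have h7 : (b1 : ZMod N) * (B : ZMod N) * (b2 : ZMod N) = (A : ZMod N) * (a1 : ZMod N) * (a2 : ZMod N) := by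
    rw [← Nat.cast_mul, ← Nat.cast_mul, ← Nat.cast_mul, ← Nat.cast_mul, ZMod.natCast_eq_natCast_iff]
    exact h
  apply mul_left_cancel₀ (mul_ne_zero (mul_ne_zero h6 h2) h4)
  rw [mul_one]
  calc (A : ZMod N) * a1 * a2 * (z * x) = (a1 * x) * (A * z) * a2 := by ring
    _ = (a1 * x) * B * (a2 * y) := by rw [h5]; ring
    _ = _ := by rw [h1, h3, h7]

theorem negfour {p b n v : ℕ} (hb : b + 4 = p) (hn : n < 2^40) (h : pm p 40 b n = v) :
    (-4 : ZMod p)^n = (v : ZMod p) := by
  have h0 : (-4 : ZMod p) = (b : ZMod p) := by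
    rw [neg_eq_iff_add_eq_zero]
    have : ((b + 4 : ℕ) : ZMod p) = 0 := by rw [hb]; exact ZMod.natCast_self p
    rw [← this]; push_cast; ring
  rw [h0, ← h, ← Nat.cast_pow, ZMod.natCast_eq_natCast_iff]
  exact (pm_spec _ _ _ _ hn).symm

theorem reflect_num {p H s t A B b : ℕ} [Fact p.Prime] (hp : p = 2*H+1) (hst : t + s = H)
    (hb : b + 4 = p) (hA : pm p 40 b s = A) (hs : s < 2^40) (hB : pm p 40 b t = B) (ht : t < 2^40) :
    (A : ZMod p) * ((Nat.choose (2*t) t : ℕ) : ZMod p) =
      (B : ZMod p) * ((Nat.choose (2*s) s : ℕ) : ZMod p) := by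
  have h6 := central_reflect (p := p) (H := H) (s := s) hp (by omega)
  have h7 : H - s = t := by omega
  rw [h7, negfour hb hs hA, negfour hb ht hB] at h6
  exact h6

theorem cast_ne {p A : ℕ} (h0 : 0 < A) (h1 : A < p) : (A : ZMod p) ≠ 0 := by
  intro h
  rw [ZMod.natCast_eq_zero_iff] at h
  have := Nat.le_of_dvd h0 h
  omega

theorem mod_p : (((248543020488).choose 124271510244 : ℕ) : ℤ) ≡ (-1)^124271510244 [ZMOD ((34766383 : ℕ) : ℤ)] := by
  have : Fact (Nat.Prime 34766383) := ⟨prime_p⟩
  have hL := Choose.choose_modEq_choose_mod_mul_choose_div (n := 248543020488) (k := 124271510244)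
    (p := 34766383)
  have e1 : 248543020488 % 34766383 = 2 * 16457402 := by norm_num
  have e2 : 248543020488 / 34766383 = 2 * 3574 := by norm_num
  have e3 : 124271510244 % 34766383 = 16457402 := by norm_num
  have e4 : 124271510244 / 34766383 = 3574 := by norm_num
  rw [e1, e2, e3, e4] at hL
  refine hL.trans ?_
  obtain ⟨h1, h2⟩ := central (N := 34766383) (h := 925789) (by norm_num) prod_PA prod_PB
  obtain ⟨h3, h4⟩ := central (N := 34766383) (h := 3574) (by norm_num) prod_PC prod_PD
  have h5 : (-1 : ℤ)^124271510244 = 1 := Even.neg_one_pow (by decide)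
  rw [h5]
  have h6 := reflect_num (p := 34766383) (H := 17383191) (s := 925789) (t := 16457402)
    (A := 20426046) (B := 4480719) (b := 34766379) (by norm_num) (by norm_num) (by norm_num)
    (by decide +kernel) (by norm_num) (by decide +kernel) (by norm_num)
  have h7 : ((20426046 : ℕ) : ZMod 34766383) ≠ 0 := cast_ne (by norm_num) (by norm_num)
  exact fin_three h3 h4 h1 h2 h6 h7 (by norm_num)

theorem conv {p q n k : ℕ} (hn : q - 1 = n) (hk : n / 2 = k)
    (h : ((Nat.choose n k : ℕ) : ℤ) ≡ (-1)^k [ZMOD (p : ℤ)]) :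
    ((Nat.choose (q-1) ((q-1)/2) : ℕ) : ℤ) ≡ (-1)^((q-1)/2) [ZMOD (p : ℤ)] := by
  subst hn; subst hk; exact h

/-- The pair `p = 34766383`, `q = 248543020489`. -/
theorem exists_counterexample : ∃ p q : ℕ, p.Prime ∧ q.Prime ∧ Odd p ∧ Odd q ∧ p ≠ q ∧
    ((Nat.choose (p * q - 1) ((p * q - 1) / 2) : ℤ) ≡
      (-1 : ℤ) ^ ((p * q - 1) / 2) [ZMOD ((p * q : ℕ) : ℤ)]) := by
  refine ⟨34766383, 248543020489, prime_p, prime_q, ?_, ?_, ?_, ?_⟩
  · decide
  · decide
  · norm_num
  · exact reduce prime_p prime_q (by decide) (by decide) (by norm_num)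
      (conv (by norm_num) (by norm_num) mod_q) (conv (by norm_num) (by norm_num) mod_p)

end Pool.Agent.CB
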