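import Pool.Agent.Lib.CB.EvalProof

set_option autoImplicit false

namespace Pool.Agent.CB

open Nat

/-- `C(p-1,k) ≡ (-1)^k (mod p)` for `k < p`. -/
theorem choose_pred_modEq {p : ℕ} (hp : p.Prime) : ∀ k : ℕ, k < p →
    ((Nat.choose (p-1) k : ℕ) : ℤ) ≡ (-1)^k [ZMOD (p:ℤ)] := by
  intro k
  induction k with
  | zero => intro _; simp
  | succ k ih =>
    intro hk
    have h1 := ih (by omega)
    have h2 : Nat.choose p (k+1) = Nat.choose (p-1) k + Nat.choose (p-1) (k+1) := by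
      obtain ⟨r, rfl⟩ : ∃ r, p = r + 1 := ⟨p - 1, by have := hp.pos; omega⟩
      simp [Nat.choose_succ_succ]
    have h3 : (p : ℤ) ∣ ((Nat.choose p (k+1) : ℕ) : ℤ) := by
      exact_mod_cast hp.dvd_choose_self (by omega) hk
    have h4 : ((Nat.choose (p-1) (k+1) : ℕ) : ℤ) =
        ((Nat.choose p (k+1) : ℕ) : ℤ) - ((Nat.choose (p-1) k : ℕ) : ℤ) := by
      rw [h2]; push_cast; ring
    rw [h4, pow_succ]
    have h5 : ((Nat.choose p (k+1) : ℕ) : ℤ) ≡ 0 [ZMOD (p:ℤ)] := (Int.modEq_zero_iff_dvd).2 h3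
    have := h5.sub h1
    refine this.trans ?_
    rw [show (0:ℤ) - (-1)^k = (-1)^k * -1 by ring]

theorem half {p q : ℕ} (hp : p.Prime) (hop : Odd p) (hoq : Odd q)
    (h : ((Nat.choose (q-1) ((q-1)/2) : ℕ) : ℤ) ≡ (-1)^((q-1)/2) [ZMOD (p:ℤ)]) :
    ((Nat.choose (p*q-1) ((p*q-1)/2) : ℕ) : ℤ) ≡ (-1)^((p*q-1)/2) [ZMOD (p:ℤ)] := by
  obtain ⟨a, ha⟩ := hop
  obtain ⟨b, hb⟩ := hoq
  have hq1 : q - 1 = 2*b := by omega
  have hq2 : (q-1)/2 = b := by omega
  have hn : p*q - 1 = p*(2*b) + 2*a := by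
    rw [hb]
    have : p*(2*b+1) = p*(2*b) + p := by ring
    omega
  have hk : (p*q-1)/2 = p*b + a := by
    rw [hn]
    have : p*(2*b) + 2*a = 2*(p*b + a) := by ring
    omega
  have hpp : 0 < p := hp.pos
  have h2a : 2*a < p := by omega
  have ha' : a < p := by omega
  have : Fact p.Prime := ⟨hp⟩
  have hL := Choose.choose_modEq_choose_mod_mul_choose_div (n := p*q-1) (k := (p*q-1)/2) (p := p)
  have e1 : (p*q-1) % p = 2*a := by rw [hn, Nat.mul_add_mod, Nat.mod_eq_of_lt h2a]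
  have e2 : (p*q-1) / p = 2*b := by
    rw [hn, Nat.mul_add_div hpp, Nat.div_eq_of_lt h2a, add_zero]
  have e3 : ((p*q-1)/2) % p = a := by rw [hk, Nat.mul_add_mod, Nat.mod_eq_of_lt ha']
  have e4 : ((p*q-1)/2) / p = b := by
    rw [hk, Nat.mul_add_div hpp, Nat.div_eq_of_lt ha', add_zero]
  rw [e1, e2, e3, e4] at hL
  refine hL.trans ?_
  have h1 := choose_pred_modEq hp a ha'
  have hp1 : p - 1 = 2*a := by omega
  rw [hp1] at h1
  rw [hq2, hq1] at h
  have h3 := h1.mul h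
  refine h3.trans ?_
  rw [hk]
  have hodd : Odd p := ⟨a, ha⟩
  have : ((-1:ℤ))^(p*b+a) = (-1)^a * (-1)^b := by
    rw [pow_add, pow_mul, hodd.neg_one_pow]; ring
  rw [this]

theorem reduce {p q : ℕ} (hp : p.Prime) (hq : q.Prime) (hop : Odd p) (hoq : Odd q) (hne : p ≠ q)
    (h1 : ((Nat.choose (p-1) ((p-1)/2) : ℕ) : ℤ) ≡ (-1)^((p-1)/2) [ZMOD (q:ℤ)])
    (h2 : ((Nat.choose (q-1) ((q-1)/2) : ℕ) : ℤ) ≡ (-1)^((q-1)/2) [ZMOD (p:ℤ)]) :
    ((Nat.choose (p*q-1) ((p*q-1)/2) : ℕ) : ℤ) ≡ (-1)^((p*q-1)/2) [ZMOD ((p*q : ℕ) : ℤ)] := by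
  have A := half hp hop hoq h2
  have B := half hq hoq hop h1
  rw [mul_comm q p] at B
  push_cast
  rw [← Int.modEq_and_modEq_iff_modEq_mul]
  · exact ⟨A, B⟩
  · simpa using (Nat.coprime_primes hp hq).2 hne

theorem prodR_one (n : ℕ) : prodR 1 n = n ! := by
  unfold prodR
  rw [← Finset.prod_range_add_one_eq_factorial]
  apply Finset.prod_congr rfl
  intro j _; ring

theorem prodR_upper (n k : ℕ) : prodR (n+1) k = k ! * (n + k).choose k := by
  rw [← Nat.ascFactorial_eq_factorial_mul_choose, Nat.ascFactorial_eq_prod_range]; rfl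

theorem prodR_step {N a c v d v' c' v'' : ℕ} (h : prodR a c ≡ v [MOD N])
    (h' : prodR (a + c) d ≡ v' [MOD N]) (e1 : c + d = c') (e2 : v * v' % N = v'') :
    prodR a c' ≡ v'' [MOD N] := by
  rw [← e1, prodR_add, ← e2]
  exact (h.mul h').trans (Nat.mod_modEq _ _).symm

/-- the central binomial coefficient, in `ZMod N`, from the two half products. -/
theorem central {N h a b : ℕ} [Fact N.Prime] (hh : h < N) (ha : prodR 1 h ≡ a [MOD N])
    (hb : prodR (h+1) h ≡ b [MOD N]) :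
    (a : ZMod N) * ((2*h).choose h : ZMod N) = (b : ZMod N) ∧ (a : ZMod N) ≠ 0 := by
  have h1 : ((prodR 1 h : ℕ) : ZMod N) = (a : ZMod N) := (ZMod.natCast_eq_natCast_iff _ _ _).2 ha
  have h2 : ((prodR (h+1) h : ℕ) : ZMod N) = (b : ZMod N) := (ZMod.natCast_eq_natCast_iff _ _ _).2 hb
  rw [prodR_one] at h1
  rw [prodR_upper] at h2
  constructor
  · rw [← h1, ← h2]
    have : h + h = 2*h := by ring
    rw [this]; push_cast; ring
  · rw [← h1]
    intro h3
    rw [ZMod.natCast_eq_zero_iff] at h3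
    have hN : N.Prime := Fact.out
    have := (hN.dvd_factorial).1 h3
    omega

/-- `C(2k,k) = (-4)^k C(H,k)` in `ZMod p`, `p = 2H+1`, `k ≤ H`. -/
theorem central_half {p H : ℕ} [Fact p.Prime] (hp : p = 2*H+1) : ∀ k ≤ H,
    ((Nat.choose (2*k) k : ℕ) : ZMod p) = (-4)^k * ((Nat.choose H k : ℕ) : ZMod p) := by
  intro k
  induction k with
  | zero => intro _; simp
  | succ k ih =>
    intro hk
    have ih' := ih (by omega)
    have h1 : ((k+1 : ℕ) : ZMod p) ≠ 0 := by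
      intro h
      rw [ZMod.natCast_eq_zero_iff] at h
      have := Nat.le_of_dvd (by omega) h
      omega
    have h2 := Nat.succ_mul_centralBinom_succ k
    rw [Nat.centralBinom_eq_two_mul_choose, Nat.centralBinom_eq_two_mul_choose] at h2
    have h3 := Nat.choose_succ_right_eq H k
    have h2' : ((k+1 : ℕ) : ZMod p) * ((Nat.choose (2*(k+1)) (k+1) : ℕ) : ZMod p) =
        2 * (2 * (k : ZMod p) + 1) * ((Nat.choose (2*k) k : ℕ) : ZMod p) := by
      rw [← Nat.cast_mul, h2]; push_cast; ring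
    have h3' : ((Nat.choose H (k+1) : ℕ) : ZMod p) * ((k+1 : ℕ) : ZMod p) =
        ((Nat.choose H k : ℕ) : ZMod p) * ((H : ZMod p) - (k : ZMod p)) := by
      rw [← Nat.cast_mul, h3, Nat.cast_mul, Nat.cast_sub (by omega)]
    have h4 : (2 * (H : ZMod p) + 1) = 0 := by
      have : ((2*H+1 : ℕ) : ZMod p) = 0 := by rw [← hp]; exact ZMod.natCast_self p
      push_cast at this
      exact this
    apply mul_left_cancel₀ h1
    rw [h2', ih']
    have h5 : ((k+1 : ℕ) : ZMod p) * ((-4)^(k+1) * ((Nat.choose H (k+1) : ℕ) : ZMod p)) =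
        (-4)^(k+1) * (((Nat.choose H (k+1) : ℕ) : ZMod p) * ((k+1 : ℕ) : ZMod p)) := by ring
    rw [h5, h3', pow_succ]
    have h6 : 2 * (2 * (k : ZMod p) + 1) = (-4) * ((H : ZMod p) - (k : ZMod p)) := by
      linear_combination (2 : ZMod p) * h4
    rw [h6]; ring

theorem central_reflect {p H s : ℕ} [Fact p.Prime] (hp : p = 2*H+1) (hs : s ≤ H) :
    (-4 : ZMod p)^s * ((Nat.choose (2*(H-s)) (H-s) : ℕ) : ZMod p) =
      (-4 : ZMod p)^(H-s) * ((Nat.choose (2*s) s : ℕ) : ZMod p) := by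
  rw [central_half hp (H-s) (by omega), central_half hp s hs, Nat.choose_symm hs]
  ring

end Pool.Agent.CB
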